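import Pool.Agent.H740R3.BQStmts

/-! Task T3 of project H740-BQ (helper750): convergence of the Gram matrices. -/

set_option autoImplicit false
set_option maxHeartbeats 4000000
set_option synthInstance.maxHeartbeats 400000

open Filter Topology

namespace Pool.Agent.H750R3.BQ

open Pool.Agent.H740R3.BQ

/-- the sequence `1, 0, 0, …` -/
noncomputable def ind0 : ℕ → ℂ := fun n => if n = 0 then 1 else 0

def ai (d k : ℕ) : ℕ := if k < 3 * d + 3 then k else k - (3 * d + 3)

noncomputable def et (d k : ℕ) (δ : ℕ → ℂ) : ℕ → ℂ := if k < 3 * d + 3 then ind0 else δ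

theorem shv_ind0 (D a : ℕ) (i : Fin D) : shv D a ind0 i = if (i : ℕ) = a then 1 else 0 := by
  unfold shv ind0
  by_cases h : a ≤ (i : ℕ)
  · rw [if_pos h]
    by_cases h2 : (i : ℕ) = a
    · rw [if_pos h2, if_pos (by omega)]
    · rw [if_neg h2, if_neg (by omega)]
  · rw [if_neg h, if_neg (by omega)]

theorem GM_col (d : ℕ) (δ : ℕ → ℂ) (i : Fin (6 * d + 6)) :
    (fun a => GM d δ a i) = shv (6 * d + 6) (ai d i) (et d i δ) := by
  funext a
  unfold GM ai et
  by_cases h : (i : ℕ) < 3 * d + 3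
  · simp only [if_pos h]
    rw [shv_ind0]
  · simp only [if_neg h]
    rfl

theorem conv_ind0_left (x : ℕ → ℂ) : conv ind0 x = x := by
  funext k
  unfold conv
  rw [Finset.sum_eq_single 0]
  · simp [ind0]
  · intro b _ hb
    simp [ind0, hb]
  · intro h
    simp at h

theorem conv_ind0_right (x : ℕ → ℂ) : conv x ind0 = x := by
  funext k
  unfold conv
  rw [Finset.sum_eq_single k]
  · simp [ind0]
  · intro b hb hne
    rw [Finset.mem_range] at hb
    have : k - b ≠ 0 := by omega
    simp [ind0, this]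
  · intro h
    simp at h

theorem conv_self (δ : ℕ → ℂ) : conv δ δ = cs δ := rfl

theorem cv_smul {D : ℕ} (s t : ℂ) (u v : Fin D → ℂ) (k : Fin D) :
    cv (fun a => u a * s) (fun a => v a * t) k = s * t * cv u v k := by
  unfold cv
  rw [Finset.mul_sum]
  apply Finset.sum_congr rfl
  intro a _
  rw [Finset.mul_sum]
  apply Finset.sum_congr rfl
  intro b _
  split_ifs
  · ring
  · simp

theorem HM_apply (d : ℕ) (p : ℕ → ℂ) (ν : ℕ) (a i : Fin (6 * d + 6)) :
    HM d p ν a i = GM d (dl p (ν ^ (2 * d))) a i * (ν : ℂ) ^ (ex d i) := by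
  unfold HM
  rw [Matrix.mul_diagonal]

/-- the sum which appears in the Gram matrix -/
noncomputable def sm {D : ℕ} (L : Fin D → ℂ) (a : ℕ) (η : ℕ → ℂ) : ℂ := ∑ k, L k * shv D a η k

theorem Gam_eq (hs : T3s) (d : ℕ) (p : ℕ → ℂ) (ν : ℕ) (L : Fin (6 * d + 6) → ℂ)
    (i j : Fin (6 * d + 6)) :
    Gam L (HM d p ν) i j = (ν : ℂ) ^ (ex d i) * (ν : ℂ) ^ (ex d j) *
      sm L (ai d i + ai d j) (conv (et d i (dl p (ν ^ (2 * d)))) (et d j (dl p (ν ^ (2 * d))))) := by
  unfold Gam sm
  rw [Finset.mul_sum]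
  apply Finset.sum_congr rfl
  intro k _
  have e1 : (fun a => HM d p ν a i) =
      fun a => GM d (dl p (ν ^ (2 * d))) a i * (ν : ℂ) ^ (ex d i) := by
    funext a
    exact HM_apply d p ν a i
  have e2 : (fun a => HM d p ν a j) =
      fun a => GM d (dl p (ν ^ (2 * d))) a j * (ν : ℂ) ^ (ex d j) := by
    funext a
    exact HM_apply d p ν a j
  rw [e1, e2, cv_smul]
  have e3 := hs (6 * d + 6) (ai d i) (ai d j) (et d i (dl p (ν ^ (2 * d))))
    (et d j (dl p (ν ^ (2 * d))))
  rw [← GM_col, ← GM_col] at e3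
  have e4 : cv (fun a => GM d (dl p (ν ^ (2 * d))) a i) (fun a => GM d (dl p (ν ^ (2 * d))) a j) k =
      shv (6 * d + 6) (ai d i + ai d j) (conv (et d i (dl p (ν ^ (2 * d))))
        (et d j (dl p (ν ^ (2 * d))))) k := congrFun e3 k
  rw [e4]
  ring

section eval
variable {d : ℕ} {δ : ℕ → ℂ} {L : Fin (6 * d + 6) → ℂ} {c : ℕ → ℂ} {z : ℕ → ℂ}

theorem sm_ind0 (h : ∀ k : Fin (6 * d + 6), ∑ i, L i * KM d δ i k =
    if (k : ℕ) < 2 * d + 2 then z k * c k else 0) {a : ℕ} (ha : a < 2 * d + 2) :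
    sm L a ind0 = z a * c a := by
  have h1 := h ⟨a, by omega⟩
  simp only [if_pos ha] at h1
  rw [← h1]
  unfold sm
  apply Finset.sum_congr rfl
  intro k _
  congr 1
  rw [shv_ind0]
  unfold KM
  simp only [if_pos ha]

theorem sm_del (h : ∀ k : Fin (6 * d + 6), ∑ i, L i * KM d δ i k =
    if (k : ℕ) < 2 * d + 2 then z k * c k else 0) {a : ℕ} (ha : a < 2 * d + 2) :
    sm L a δ = 0 := by
  have h1 := h ⟨2 * d + 2 + a, by omega⟩
  have n1 : ¬ (2 * d + 2 + a < 2 * d + 2) := by omega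
  have n2 : 2 * d + 2 + a < 4 * d + 4 := by omega
  simp only [if_neg n1] at h1
  rw [← h1]
  unfold sm
  apply Finset.sum_congr rfl
  intro k _
  congr 1
  unfold KM shv
  simp only [if_neg n1, if_pos n2]
  have e : 2 * d + 2 + a - (2 * d + 2) = a := by omega
  rw [e]

theorem sm_cs (h : ∀ k : Fin (6 * d + 6), ∑ i, L i * KM d δ i k =
    if (k : ℕ) < 2 * d + 2 then z k * c k else 0) {a : ℕ} (ha : a < 2 * d + 2) :
    sm L a (cs δ) = 0 := by
  have h1 := h ⟨4 * d + 4 + a, by omega⟩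
  have n1 : ¬ (4 * d + 4 + a < 2 * d + 2) := by omega
  have n2 : ¬ (4 * d + 4 + a < 4 * d + 4) := by omega
  simp only [if_neg n1] at h1
  rw [← h1]
  unfold sm
  apply Finset.sum_congr rfl
  intro k _
  congr 1
  unfold KM shv
  simp only [if_neg n1, if_neg n2]
  have e : 4 * d + 4 + a - (4 * d + 4) = a := by omega
  rw [e]

end eval

theorem sm_bound {D : ℕ} {L : Fin D → ℂ} {a : ℕ} {x y : ℕ → ℂ} {A M : ℝ} (hA : 0 ≤ A)
    (hM : 0 ≤ M) (hL : ∀ i, ‖L i‖ ≤ A) (hx : ∀ k < D, ‖x k‖ ≤ M) (hy : ∀ k < D, ‖y k‖ ≤ M) :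
    ‖sm L a (conv x y)‖ ≤ D * (A * (D * (M * M))) := by
  unfold sm
  refine (norm_sum_le _ _).trans ?_
  have h : ∀ k ∈ (Finset.univ : Finset (Fin D)), ‖L k * shv D a (conv x y) k‖ ≤
      A * (D * (M * M)) := by
    intro k _
    rw [norm_mul]
    refine mul_le_mul (hL k) ?_ (norm_nonneg _) hA
    unfold shv
    split_ifs with h
    · unfold conv
      refine (norm_sum_le _ _).trans ?_
      have h2 : ∀ j ∈ Finset.range ((k : ℕ) - a + 1), ‖x j * y ((k : ℕ) - a - j)‖ ≤ M * M := by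
        intro j hj
        rw [Finset.mem_range] at hj
        have hk := k.2
        rw [norm_mul]
        exact mul_le_mul (hx j (by omega)) (hy _ (by omega)) (norm_nonneg _) hM
      refine (Finset.sum_le_card_nsmul _ _ _ h2).trans ?_
      rw [Finset.card_range, nsmul_eq_mul]
      have hk := k.2
      refine mul_le_mul_of_nonneg_right ?_ (mul_nonneg hM hM)
      exact_mod_cast (by omega : (k : ℕ) - a + 1 ≤ D)
    · rw [norm_zero]
      positivity
  refine (Finset.sum_le_card_nsmul _ _ _ h).trans ?_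
  rw [Finset.card_univ, Fintype.card_fin, nsmul_eq_mul]

theorem bdd_dl (h0 : T0) (d : ℕ) (p : ℕ → ℂ) (hd : 1 ≤ d) (D : ℕ) :
    ∃ M : ℝ, 1 ≤ M ∧ ∀ᶠ ν : ℕ in atTop, ∀ k < D, ‖dl p (ν ^ (2 * d)) k‖ ≤ M := by
  refine ⟨1 + ∑ k ∈ Finset.range D, (‖dinf (p 0) k‖ + 1), ?_, ?_⟩
  · have : 0 ≤ ∑ k ∈ Finset.range D, (‖dinf (p 0) k‖ + 1) :=
      Finset.sum_nonneg fun k _ => by positivity
    linarith
  · have h1 : ∀ k ∈ Finset.range D, ∀ᶠ ν : ℕ in atTop,
        ‖dl p (ν ^ (2 * d)) k‖ ≤ 1 + ∑ k ∈ Finset.range D, (‖dinf (p 0) k‖ + 1) := by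
      intro k hk
      have h2 := (h0 d p hd k).norm
      have h3 : ‖dinf (p 0) k‖ < ‖dinf (p 0) k‖ + 1 := by linarith
      filter_upwards [h2.eventually_lt_const h3] with ν hν
      have h4 : ‖dinf (p 0) k‖ + 1 ≤ ∑ k ∈ Finset.range D, (‖dinf (p 0) k‖ + 1) :=
        Finset.single_le_sum (f := fun k => ‖dinf (p 0) k‖ + 1) (fun k _ => by positivity) hk
      linarith
    have h5 := (Finset.range D).eventually_all.2 h1
    filter_upwards [h5] with ν hν k hk
    exact hν k (Finset.mem_range.2 hk)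

theorem ex_le {d k : ℕ} (hd : 1 ≤ d) : ex d k ≤ (ai d k : ℤ) + 1 - 2 * d * (ai d k : ℤ) := by
  unfold ex ai
  split_ifs with h1 h2 h3
  · omega
  · omega
  · omega
  · have : ((k - (3 * d + 3) : ℕ) : ℤ) = (k : ℤ) - (3 * d + 3) := by
      push_cast [Nat.cast_sub (by omega : 3 * d + 3 ≤ k)]
      ring
    rw [this]

theorem t3 : T3 := by
  intro h0 h3a hs d p c hd hc hdet
  obtain ⟨L, C, hL⟩ := h3a h0 d p c hd hc hdet
  refine ⟨L, ?_, ?_⟩
  · filter_upwards [hL, eventually_ge_atTop 1] with ν hν hν1 i j hi hj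
    obtain ⟨_, hν2⟩ := hν
    rw [Gam_eq hs]
    have ei : ai d (i : ℕ) = 0 := by unfold ai; rw [if_pos (by omega)]; exact hi
    have ej : ai d (j : ℕ) = 0 := by unfold ai; rw [if_pos (by omega)]; exact hj
    have fi : et d (i : ℕ) (dl p (ν ^ (2 * d))) = ind0 := by unfold et; rw [if_pos (by omega)]
    have fj : et d (j : ℕ) (dl p (ν ^ (2 * d))) = ind0 := by unfold et; rw [if_pos (by omega)]
    have gi : ex d (i : ℕ) = 0 := by unfold ex; rw [if_pos (by omega), hi]; simp
    have gj : ex d (j : ℕ) = 0 := by unfold ex; rw [if_pos (by omega), hj]; simp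
    rw [ei, ej, fi, fj, gi, gj, conv_ind0_left,
      sm_ind0 (z := fun k => (ν : ℂ) ^ (2 * d * k)) hν2 (by omega)]
    simp
  · intro i j
    by_cases hij : (i : ℕ) < d ∧ (j : ℕ) < d
    · rw [if_pos hij]
      refine Tendsto.congr' ?_ tendsto_const_nhds
      filter_upwards [hL, eventually_ge_atTop 1] with ν hν hν1
      obtain ⟨_, hν2⟩ := hν
      have hν0 : (ν : ℂ) ≠ 0 := by
        have : ν ≠ 0 := by omega
        exact_mod_cast this
      rw [Gam_eq hs]
      obtain ⟨hi, hj⟩ := hij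
      have ei : ai d (i : ℕ) = i := by unfold ai; rw [if_pos (by omega)]
      have ej : ai d (j : ℕ) = j := by unfold ai; rw [if_pos (by omega)]
      have fi : et d (i : ℕ) (dl p (ν ^ (2 * d))) = ind0 := by unfold et; rw [if_pos (by omega)]
      have fj : et d (j : ℕ) (dl p (ν ^ (2 * d))) = ind0 := by unfold et; rw [if_pos (by omega)]
      have gi : ex d (i : ℕ) = -(2 * d * (i : ℤ)) := by unfold ex; rw [if_pos hi]
      have gj : ex d (j : ℕ) = -(2 * d * (j : ℤ)) := by unfold ex; rw [if_pos hj]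
      rw [ei, ej, fi, fj, gi, gj, conv_ind0_left,
        sm_ind0 (z := fun k => (ν : ℂ) ^ (2 * d * k)) hν2 (by omega), ← zpow_add₀ hν0]
      have e1 : (ν : ℂ) ^ (2 * d * ((i : ℕ) + (j : ℕ))) =
          (ν : ℂ) ^ (2 * (d : ℤ) * ((i : ℤ) + (j : ℤ))) := by
        rw [← zpow_natCast]
        push_cast
        rfl
      simp only [e1]
      rw [← mul_assoc, ← zpow_add₀ hν0]
      have e2 : -(2 * (d : ℤ) * (i : ℤ)) + -(2 * d * (j : ℤ)) + 2 * (d : ℤ) * ((i : ℤ) + (j : ℤ)) = 0 := by
        ring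
      rw [e2, zpow_zero, one_mul]
    · rw [if_neg hij]
      by_cases ha : ai d i + ai d j < 2 * d + 2
      · refine Tendsto.congr' ?_ tendsto_const_nhds
        filter_upwards [hL, eventually_ge_atTop 1] with ν hν hν1
        obtain ⟨_, hν2⟩ := hν
        rw [Gam_eq hs]
        symm
        apply mul_eq_zero_of_right
        by_cases hi : (i : ℕ) < 3 * d + 3
        · have ei : ai d (i : ℕ) = i := by unfold ai; rw [if_pos hi]
          have fi : et d (i : ℕ) (dl p (ν ^ (2 * d))) = ind0 := by unfold et; rw [if_pos hi]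
          by_cases hj : (j : ℕ) < 3 * d + 3
          · have ej : ai d (j : ℕ) = j := by unfold ai; rw [if_pos hj]
            have fj : et d (j : ℕ) (dl p (ν ^ (2 * d))) = ind0 := by unfold et; rw [if_pos hj]
            rw [fi, fj, conv_ind0_left,
              sm_ind0 (z := fun k => (ν : ℂ) ^ (2 * d * k)) hν2 ha, ei, ej,
              hc _ (by by_contra h; exact hij ⟨by omega, by omega⟩), mul_zero]
          · have fj : et d (j : ℕ) (dl p (ν ^ (2 * d))) = dl p (ν ^ (2 * d)) := by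
              unfold et; rw [if_neg hj]
            rw [fi, fj, conv_ind0_left]
            exact sm_del (z := fun k => (ν : ℂ) ^ (2 * d * k)) hν2 ha
        · have fi : et d (i : ℕ) (dl p (ν ^ (2 * d))) = dl p (ν ^ (2 * d)) := by
            unfold et; rw [if_neg hi]
          by_cases hj : (j : ℕ) < 3 * d + 3
          · have fj : et d (j : ℕ) (dl p (ν ^ (2 * d))) = ind0 := by unfold et; rw [if_pos hj]
            rw [fi, fj, conv_ind0_right]
            exact sm_del (z := fun k => (ν : ℂ) ^ (2 * d * k)) hν2 ha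
          · have fj : et d (j : ℕ) (dl p (ν ^ (2 * d))) = dl p (ν ^ (2 * d)) := by
              unfold et; rw [if_neg hj]
            rw [fi, fj, conv_self]
            exact sm_cs (z := fun k => (ν : ℂ) ^ (2 * d * k)) hν2 ha
      · -- the remainder
        obtain ⟨M, hM1, hM⟩ := bdd_dl h0 d p hd (6 * d + 6)
        set K : ℝ := ((6 * d + 6 : ℕ) : ℝ) * (|C| * (((6 * d + 6 : ℕ) : ℝ) * (M * M))) with hK
        have hK0 : 0 ≤ K := by positivity
        have hlim : Tendsto (fun ν : ℕ => K * (ν : ℝ)⁻¹) atTop (𝓝 0) := by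
          have := (tendsto_inv_atTop_nhds_zero_nat (𝕜 := ℝ)).const_mul K
          simpa using this
        refine squeeze_zero_norm' ?_ hlim
        filter_upwards [hL, eventually_ge_atTop 1, hM] with ν hν hν1 hνM
        obtain ⟨hν3, _⟩ := hν
        have hν1R : (1 : ℝ) ≤ ν := by exact_mod_cast hν1
        have hν0R : (ν : ℝ) ≠ 0 := by positivity
        rw [Gam_eq hs, norm_mul, norm_mul, norm_zpow, norm_zpow, Complex.norm_natCast]
        have hb : ‖sm (L ν) (ai d i + ai d j) (conv (et d i (dl p (ν ^ (2 * d))))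
            (et d j (dl p (ν ^ (2 * d)))))‖ ≤
            ((6 * d + 6 : ℕ) : ℝ) * ((|C| * (ν : ℝ) ^ (2 * d * (d - 1))) *
              (((6 * d + 6 : ℕ) : ℝ) * (M * M))) := by
          have hind : ∀ k, ‖ind0 k‖ ≤ M := by
            intro k
            unfold ind0
            split_ifs
            · rw [norm_one]; exact hM1
            · rw [norm_zero]; linarith
          apply sm_bound (by positivity) (by linarith)
          · intro k
            refine (hν3 k).trans (mul_le_mul_of_nonneg_right (le_abs_self C) (by positivity))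
          · intro k hk
            unfold et
            split_ifs
            · exact hind k
            · exact hνM k hk
          · intro k hk
            unfold et
            split_ifs
            · exact hind k
            · exact hνM k hk
        have hexp : (ν : ℝ) ^ (ex d i) * (ν : ℝ) ^ (ex d j) * (ν : ℝ) ^ (2 * d * (d - 1)) ≤
            (ν : ℝ)⁻¹ := by
          have e1 : (ν : ℝ) ^ (2 * d * (d - 1)) = (ν : ℝ) ^ (2 * (d : ℤ) * ((d : ℤ) - 1)) := by
            rw [← zpow_natCast]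
            congr 1
            push_cast [Nat.cast_sub hd]
            ring
          rw [e1, ← zpow_add₀ hν0R, ← zpow_add₀ hν0R, ← zpow_neg_one]
          apply zpow_le_zpow_right₀ hν1R
          have a1 := ex_le (k := (i : ℕ)) hd
          have a2 := ex_le (k := (j : ℕ)) hd
          have a3 : (2 * d + 2 : ℤ) ≤ (ai d i : ℤ) + (ai d j : ℤ) := by
            have : 2 * d + 2 ≤ ai d i + ai d j := by omega
            exact_mod_cast this
          have hdZ : (1 : ℤ) ≤ d := by exact_mod_cast hd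
          have a4 : ((2 : ℤ) * d - 1) * (2 * d + 2) ≤
              (2 * d - 1) * ((ai d i : ℤ) + (ai d j : ℤ)) :=
            mul_le_mul_of_nonneg_left a3 (by linarith)
          nlinarith
        calc (ν : ℝ) ^ (ex d i) * (ν : ℝ) ^ (ex d j) * ‖sm (L ν) (ai d i + ai d j)
              (conv (et d i (dl p (ν ^ (2 * d)))) (et d j (dl p (ν ^ (2 * d)))))‖
            ≤ (ν : ℝ) ^ (ex d i) * (ν : ℝ) ^ (ex d j) *
              (((6 * d + 6 : ℕ) : ℝ) * ((|C| * (ν : ℝ) ^ (2 * d * (d - 1))) *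
              (((6 * d + 6 : ℕ) : ℝ) * (M * M)))) :=
              mul_le_mul_of_nonneg_left hb (by positivity)
          _ = K * ((ν : ℝ) ^ (ex d i) * (ν : ℝ) ^ (ex d j) * (ν : ℝ) ^ (2 * d * (d - 1))) := by
              rw [hK]; ring
          _ ≤ K * (ν : ℝ)⁻¹ := mul_le_mul_of_nonneg_left hexp hK0

end Pool.Agent.H750R3.BQ
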